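import Pool.Agent.W668.Shai.C01

/-!
# The SHAI property for separable spaces with the bounded approximation property which contain
their own `c₀`-sum in a complemented way
-/

set_option autoImplicit false

open Filter Topology Set
open scoped ZeroAtInfty

namespace Pool.Agent.Y283.SH

open Pool.Agent.H148R3 Pool.Agent.W668.Shai

section
variable {𝕜 : Type*} [RCLike 𝕜] {X : Type*} [NormedAddCommGroup X] [NormedSpace 𝕜 X]

/-- a sequence of operators which tends to zero strongly is an operator into `c₀(X)` -/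
lemma exists_D [CompleteSpace X] (R : ℕ → (X →L[𝕜] X)) (hR : ∀ x, Tendsto (fun n => R n x) atTop (𝓝 0)) :
    ∃ D : X →L[𝕜] C₀(ℕ, X), ∀ x n, D x n = R n x := by
  obtain ⟨C, hC⟩ : ∃ C, ∀ n, ‖R n‖ ≤ C := by
    apply banach_steinhaus
    intro f
    obtain ⟨C, hC⟩ := ((hR f).norm).bddAbove_range
    exact ⟨C, fun n => hC ⟨n, rfl⟩⟩
  have hC0 : 0 ≤ C := (norm_nonneg _).trans (hC 0)
  let D0 : X → C₀(ℕ, X) := fun x =>
    { toFun := fun n => R n x
      continuous_toFun := continuous_of_discreteTopology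
      zero_at_infty' := by
        rw [Filter.cocompact_eq_cofinite, Nat.cofinite_eq_atTop]
        exact hR x }
  refine ⟨LinearMap.mkContinuous
    { toFun := D0
      map_add' := fun x y => by
        ext n
        exact map_add (R n) x y
      map_smul' := fun a x => by
        ext n
        exact map_smul (R n) a x } C ?_, fun x n => rfl⟩
  intro x
  show ‖D0 x‖ ≤ C * ‖x‖
  rw [← ZeroAtInftyContinuousMap.norm_toBCF_eq_norm]
  refine (BoundedContinuousFunction.norm_le (by positivity)).2 fun n => ?_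
  exact ((R n).le_opNorm x).trans (mul_le_mul_of_nonneg_right (hC n) (norm_nonneg _))

/-- an operator with finite dimensional range is killed together with the rank one operators -/
lemma killed {Y : Type*} [NormedAddCommGroup Y] [NormedSpace 𝕜 Y]
    (ψ : (X →L[𝕜] X) →ₐ[𝕜] (Y →L[𝕜] Y))
    (hrk : ∀ (f : StrongDual 𝕜 X) (x : X), ψ (rk f x) = 0) (P : X →L[𝕜] X)
    (hP : FiniteDimensional 𝕜 (LinearMap.range (P : X →ₗ[𝕜] X))) : ψ P = 0 := by
  set F := LinearMap.range (P : X →ₗ[𝕜] X) with hF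
  let b := Module.finBasis 𝕜 F
  let P' : X →L[𝕜] F := P.codRestrict F fun x => ⟨x, rfl⟩
  have h1 : P = ∑ i, rk ((LinearMap.toContinuousLinearMap (b.coord i)).comp P') ((b i : F) : X) := by
    ext x
    have h2 := congrArg (fun y : F => (y : X)) (b.sum_repr (P' x))
    simp only [Submodule.coe_sum, Submodule.coe_smul] at h2
    rw [ContinuousLinearMap.sum_apply]
    exact h2.symm
  rw [h1, map_sum]
  exact Finset.sum_eq_zero fun i _ => hrk _ _

/-- the general theorem -/
theorem shai [CompleteSpace X] [TopologicalSpace.SeparableSpace X]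
    (P : ℕ → (X →L[𝕜] X))
    (hP : ∀ n, FiniteDimensional 𝕜 (LinearMap.range (P n : X →ₗ[𝕜] X)))
    (hlim : ∀ x, Tendsto (fun n => P n x) atTop (𝓝 x))
    (J : C₀(ℕ, X) →L[𝕜] X) (V : ℕ → (X →L[𝕜] X)) (c : ℝ) (hV : ∀ n, ‖V n‖ ≤ c)
    (hVJ : ∀ n g, V n (J g) = g n)
    {Y : Type*} [NormedAddCommGroup Y] [NormedSpace 𝕜 Y] [CompleteSpace Y] [Nontrivial Y]
    (φ : (X →L[𝕜] X) →ₙₐ[𝕜] (Y →L[𝕜] Y)) (hφ : Function.Surjective φ) : Function.Injective φ := by
  classical
  set ψ : (X →L[𝕜] X) →ₐ[𝕜] (Y →L[𝕜] Y) := toAlg φ hφ with hψdef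
  have hψφ : ∀ T, ψ T = φ T := fun T => rfl
  have hψ : Function.Surjective ψ := hφ
  rw [injective_iff_map_eq_zero]
  intro T0 hT0
  by_contra hne
  have hrk : ∀ (f : StrongDual 𝕜 X) (x : X), ψ (rk f x) = 0 := rank_one_killed ψ T0 hne hT0
  have hB : ∀ n, ψ (P n) = 0 := fun n => killed ψ hrk (P n) (hP n)
  refine key2 ψ hψ V c hV fun S => ?_
  obtain ⟨D, hD⟩ := exists_D (fun n => if n ∈ S then 1 - P n else 0) (by
    intro x
    have h1 : Tendsto (fun n => x - P n x) atTop (𝓝 0) := by
      have h2 := (tendsto_const_nhds (x := x)).sub (hlim x)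
      rwa [sub_self] at h2
    have h2 := h1.norm
    rw [norm_zero] at h2
    refine squeeze_zero_norm (fun n => ?_) h2
    by_cases hn : n ∈ S
    · rw [if_pos hn]
      exact le_rfl
    · rw [if_neg hn]
      show ‖(0 : X)‖ ≤ _
      rw [norm_zero]
      exact norm_nonneg _)
  refine ⟨J.comp D, fun n => ⟨fun hn => ?_, fun hn => ?_⟩⟩
  · have h1 : V n * (J.comp D) = 1 - P n := by
      ext x
      show V n (J (D x)) = _
      rw [hVJ, hD, if_pos hn]
    rw [h1, map_sub, map_one, hB, sub_zero]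
  · have h1 : V n * (J.comp D) = 0 := by
      ext x
      show V n (J (D x)) = _
      rw [hVJ, hD, if_neg hn]
    rw [h1, map_zero]

end

end Pool.Agent.Y283.SH
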