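import Pool.Agent.Y283.SH.Gen

/-!
# The spaces `C([0,1], E)`
-/

set_option autoImplicit false

open Filter Topology Set unitInterval
open scoped ZeroAtInfty

namespace Pool.Agent.Y283.SH

open Pool.Agent.H148R3 Pool.Agent.W668.Shai

section General

variable {𝕜 : Type*} [RCLike 𝕜] {E : Type*} [NormedAddCommGroup E] [NormedSpace 𝕜 E]
variable {K : Type*} [TopologicalSpace K] [CompactSpace K]

/-- composition with a continuous self-map. -/
noncomputable def compE (g : C(K, K)) : C(K, E) →L[𝕜] C(K, E) :=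
  LinearMap.mkContinuous
    { toFun := fun f => f.comp g
      map_add' := fun _ _ => rfl
      map_smul' := fun _ _ => rfl } 1 (by
    intro f
    rw [one_mul]
    refine (ContinuousMap.norm_le _ (norm_nonneg _)).2 fun x => ?_
    exact ContinuousMap.norm_coe_le_norm f (g x))

lemma compE_apply (g : C(K, K)) (f : C(K, E)) (x : K) :
    (compE g : C(K, E) →L[𝕜] C(K, E)) f x = f (g x) := rfl

lemma compE_norm (g : C(K, K)) : ‖(compE g : C(K, E) →L[𝕜] C(K, E))‖ ≤ 1 :=
  LinearMap.mkContinuous_norm_le _ zero_le_one _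

/-- the embedding of the `c₀`-sum -/
lemma exists_J [CompleteSpace E] (h : ℕ → C(K, ℝ)) (h01 : ∀ n x, h n x ∈ Icc (0 : ℝ) 1)
    (hdisj : ∀ m n x, m ≠ n → h m x ≠ 0 → h n x = 0) (r : ℕ → C(K, K)) :
    ∃ J : C₀(ℕ, C(K, E)) →L[𝕜] C(K, E), ∀ n x, h n x = 1 → ∀ g, J g x = g n (r n x) := by
  classical
  set t : ℕ → C₀(ℕ, C(K, E)) → C(K, E) := fun n f =>
    (⟨fun x => ((h n x : ℝ) : 𝕜) • f n (r n x), by fun_prop⟩ : C(K, E)) with ht
  have htx : ∀ n f x, t n f x = ((h n x : ℝ) : 𝕜) • f n (r n x) := fun n f x => rfl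
  have htn : ∀ n f x, ‖t n f x‖ ≤ ‖f n‖ := by
    intro n f x
    rw [htx, norm_smul, RCLike.norm_ofReal, abs_of_nonneg (h01 n x).1]
    calc h n x * ‖f n (r n x)‖ ≤ 1 * ‖f n‖ := by
          gcongr
          · exact (h01 n x).2
          · exact ContinuousMap.norm_coe_le_norm _ _
      _ = _ := one_mul _
  have ht0 : ∀ n f x, h n x = 0 → t n f x = 0 := by
    intro n f x hx
    rw [htx, hx]
    simp
  have hfin : ∀ (F : Finset ℕ) (f : C₀(ℕ, C(K, E))) (M : ℝ), 0 ≤ M → (∀ n ∈ F, ‖f n‖ ≤ M) →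
      ‖∑ n ∈ F, t n f‖ ≤ M := by
    intro F f M hM hF
    refine (ContinuousMap.norm_le _ hM).2 fun x => ?_
    rw [ContinuousMap.sum_apply]
    by_cases hx : ∃ m ∈ F, h m x ≠ 0
    · obtain ⟨m, hm, hmx⟩ := hx
      rw [Finset.sum_eq_single_of_mem m hm]
      · exact (htn m f x).trans (hF m hm)
      · intro n _ hnm
        exact ht0 n f x (hdisj m n x hnm.symm hmx)
    · push Not at hx
      rw [Finset.sum_eq_zero fun n hn => ht0 n f x (hx n hn), norm_zero]
      exact hM
  have hR : ∀ f : C₀(ℕ, C(K, E)), Tendsto (fun n => f n) atTop (𝓝 0) := by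
    intro f
    have h1 := f.zero_at_infty'
    rw [Filter.cocompact_eq_cofinite, Nat.cofinite_eq_atTop] at h1
    exact h1
  have hsum : ∀ f, Summable (fun n => t n f) := by
    intro f
    rw [summable_iff_vanishing_norm]
    intro ε hε
    obtain ⟨N, hN⟩ := (Metric.tendsto_atTop.1 (hR f)) (ε / 2) (half_pos hε)
    refine ⟨Finset.range N, fun F hF => ?_⟩
    refine (hfin F f (ε / 2) (half_pos hε).le fun n hn => ?_).trans_lt (half_lt_self hε)
    have hnN : N ≤ n := by
      by_contra hlt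
      exact Finset.disjoint_left.1 hF hn (Finset.mem_range.2 (not_le.1 hlt))
    have := hN n hnN
    rw [dist_zero_right] at this
    exact this.le
  have hev : ∀ f x, (∑' n, t n f) x = ∑' n, t n f x := by
    intro f x
    exact ((ContinuousMap.evalCLM 𝕜 x).hasSum (hsum f).hasSum).tsum_eq.symm
  have hnf : ∀ (f : C₀(ℕ, C(K, E))) (n : ℕ), ‖f n‖ ≤ ‖f‖ := by
    intro f n
    rw [← ZeroAtInftyContinuousMap.norm_toBCF_eq_norm]
    exact f.toBCF.norm_coe_le_norm n
  refine ⟨LinearMap.mkContinuous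
    { toFun := fun f => ∑' n, t n f
      map_add' := fun f g => by
        have : ∀ n, t n (f + g) = t n f + t n g := by
          intro n
          ext x
          rw [ContinuousMap.add_apply, htx, htx, htx, ZeroAtInftyContinuousMap.coe_add,
            Pi.add_apply, ContinuousMap.add_apply, smul_add]
        simp only [this]
        exact (hsum f).tsum_add (hsum g)
      map_smul' := fun c f => by
        have : ∀ n, t n (c • f) = c • t n f := by
          intro n
          ext x
          rw [ContinuousMap.smul_apply, htx, htx, ZeroAtInftyContinuousMap.coe_smul,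
            Pi.smul_apply, ContinuousMap.smul_apply, smul_comm]
        simp only [this, RingHom.id_apply]
        exact (hsum f).tsum_const_smul c } 1 ?_, ?_⟩
  · intro f
    change ‖∑' n, t n f‖ ≤ 1 * ‖f‖
    refine le_of_tendsto (hsum f).hasSum.norm (Filter.Eventually.of_forall fun F => ?_)
    rw [one_mul]
    exact hfin F f _ (norm_nonneg _) fun n _ => hnf f n
  · intro n x hx f
    change (∑' n, t n f) x = _
    rw [hev, tsum_eq_single n]
    · rw [htx, hx]
      simp
    · intro m hm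
      exact ht0 m f x (hdisj n m x hm.symm (by rw [hx]; exact one_ne_zero))

end General

section Unit

variable {𝕜 : Type*} [RCLike 𝕜] {E : Type*} [NormedAddCommGroup E] [NormedSpace 𝕜 E]

/-- the operator `e ↦ b_{n,k} e` -/
noncomputable def bS (𝕜 : Type*) [RCLike 𝕜] (E : Type*) [NormedAddCommGroup E] [NormedSpace 𝕜 E]
    (n : ℕ) (k : Fin (n + 1)) : E →L[𝕜] C(I, E) :=
  LinearMap.mkContinuous
    { toFun := fun e => (⟨fun x => ((bernstein n k x : ℝ) : 𝕜) • e, by fun_prop⟩ : C(I, E))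
      map_add' := fun f g => by
        ext x
        exact smul_add _ _ _
      map_smul' := fun c f => by
        ext x
        exact smul_comm _ _ _ } 1 (by
    intro e
    refine (ContinuousMap.norm_le _ (by positivity)).2 fun x => ?_
    show ‖((bernstein n k x : ℝ) : 𝕜) • e‖ ≤ _
    rw [norm_smul, RCLike.norm_ofReal, abs_of_nonneg bernstein_nonneg]
    have h1 : bernstein n k x ≤ 1 := by
      have h2 := bernstein.probability n x
      rw [← h2]
      exact Finset.single_le_sum (f := fun k : Fin (n + 1) => bernstein n k x)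
        (fun _ _ => bernstein_nonneg) (Finset.mem_univ k)
    exact mul_le_mul_of_nonneg_right h1 (norm_nonneg _))

lemma bS_apply (n : ℕ) (k : Fin (n + 1)) (e : E) (x : I) :
    bS 𝕜 E n k e x = ((bernstein n k x : ℝ) : 𝕜) • e := rfl

/-- the Bernstein operator, composed with an operator of `E` -/
noncomputable def bQ (P : E →L[𝕜] E) (n : ℕ) : C(I, E) →L[𝕜] C(I, E) :=
  ∑ k : Fin (n + 1), (bS 𝕜 E n k).comp (P.comp (ContinuousMap.evalCLM 𝕜 (bernstein.z k)))

lemma bQ_apply (P : E →L[𝕜] E) (n : ℕ) (f : C(I, E)) :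
    bQ P n f = ∑ k : Fin (n + 1), bS 𝕜 E n k (P (f (bernstein.z k))) := by
  unfold bQ
  rw [_root_.sum_apply]
  rfl

lemma bQ_finite (P : E →L[𝕜] E) (hP : FiniteDimensional 𝕜 (LinearMap.range (P : E →ₗ[𝕜] E)))
    (n : ℕ) : FiniteDimensional 𝕜 (LinearMap.range (bQ P n : C(I, E) →ₗ[𝕜] C(I, E))) := by
  have h1 : LinearMap.range (bQ P n : C(I, E) →ₗ[𝕜] C(I, E)) ≤
      ⨆ k : Fin (n + 1), (LinearMap.range (P : E →ₗ[𝕜] E)).map (bS 𝕜 E n k : E →ₗ[𝕜] C(I, E)) := by
    rintro _ ⟨f, rfl⟩
    show bQ P n f ∈ _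
    rw [bQ_apply]
    refine Submodule.sum_mem _ fun k _ => ?_
    refine Submodule.mem_iSup_of_mem k ?_
    exact ⟨P (f (bernstein.z k)), ⟨f (bernstein.z k), rfl⟩, rfl⟩
  exact Submodule.finiteDimensional_of_le h1

/-- the composition with an operator of `E` -/
noncomputable def post (P : E →L[𝕜] E) : C(I, E) →L[𝕜] C(I, E) :=
  LinearMap.mkContinuous
    { toFun := fun f => (⟨fun x => P (f x), by fun_prop⟩ : C(I, E))
      map_add' := fun f g => by
        ext x
        exact map_add P _ _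
      map_smul' := fun c f => by
        ext x
        exact map_smul P _ _ } ‖P‖ (by
    intro f
    refine (ContinuousMap.norm_le _ (by positivity)).2 fun x => ?_
    exact (P.le_opNorm _).trans
      (mul_le_mul_of_nonneg_left (ContinuousMap.norm_coe_le_norm f x) (norm_nonneg _)))

lemma post_apply (P : E →L[𝕜] E) (f : C(I, E)) (x : I) : post P f x = P (f x) := rfl

lemma post_norm (P : E →L[𝕜] E) : ‖post P‖ ≤ ‖P‖ :=
  LinearMap.mkContinuous_norm_le _ (norm_nonneg _) _

lemma bQ_post (P : E →L[𝕜] E) (n : ℕ) (f : C(I, E)) :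
    bQ P n f = post P (bQ (1 : E →L[𝕜] E) n f) := by
  ext x
  rw [post_apply, bQ_apply, bQ_apply, ContinuousMap.sum_apply, ContinuousMap.sum_apply, map_sum]
  refine Finset.sum_congr rfl fun k _ => ?_
  rw [bS_apply, bS_apply, map_smul]
  rfl

variable [NormedSpace ℝ E] [IsScalarTower ℝ 𝕜 E]

lemma bQ_one (n : ℕ) (f : C(I, E)) : bQ (1 : E →L[𝕜] E) n f = bernsteinApproximation n f := by
  ext x
  rw [bernsteinApproximation.apply, bQ_apply, ContinuousMap.sum_apply]
  refine Finset.sum_congr rfl fun k _ => ?_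
  rw [bS_apply]
  show ((bernstein n k x : ℝ) : 𝕜) • f (bernstein.z k) = _
  rw [← RCLike.real_smul_eq_coe_smul (K := 𝕜)]

lemma bQ_tendsto [CompleteSpace E] (P : ℕ → (E →L[𝕜] E))
    (hlim : ∀ x, Tendsto (fun n => P n x) atTop (𝓝 x)) (f : C(I, E)) :
    Tendsto (fun n => bQ (P n) n f) atTop (𝓝 f) := by
  obtain ⟨C, hC⟩ : ∃ C, ∀ n, ‖P n‖ ≤ C := by
    apply banach_steinhaus
    intro x
    obtain ⟨C, hC⟩ := ((hlim x).norm).bddAbove_range
    exact ⟨C, fun n => hC ⟨n, rfl⟩⟩
  have hC0 : 0 ≤ C := (norm_nonneg _).trans (hC 0)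
  have hB : Tendsto (fun n => bQ (1 : E →L[𝕜] E) n f) atTop (𝓝 f) := by
    simp_rw [bQ_one]
    exact bernsteinApproximation_uniform f
  -- the operators `post (P n)` on the Bernstein polynomials
  have hA : ∀ N, Tendsto (fun n => post (P n) (bQ (1 : E →L[𝕜] E) N f)) atTop
      (𝓝 (bQ (1 : E →L[𝕜] E) N f)) := by
    intro N
    have h1 : ∀ n, post (P n) (bQ (1 : E →L[𝕜] E) N f) =
        ∑ k : Fin (N + 1), bS 𝕜 E N k (P n (f (bernstein.z k))) := by
      intro n
      rw [← bQ_post, bQ_apply]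
    simp_rw [h1]
    rw [bQ_apply]
    refine tendsto_finsetSum _ fun k _ => ?_
    exact ((bS 𝕜 E N k).continuous.tendsto _).comp (hlim _)
  rw [Metric.tendsto_atTop]
  intro ε hε
  obtain ⟨N, hN⟩ := Metric.tendsto_atTop.1 hB (ε / (4 * (C + 1))) (by positivity)
  obtain ⟨M, hM⟩ := Metric.tendsto_atTop.1 (hA N) (ε / 4) (by positivity)
  refine ⟨max N M, fun n hn => ?_⟩
  have hn1 : N ≤ n := (le_max_left _ _).trans hn
  have hn2 : M ≤ n := (le_max_right _ _).trans hn
  have a1 := hN n hn1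
  have a2 := hN N le_rfl
  have a3 := hM n hn2
  rw [dist_eq_norm] at a1 a2 a3 ⊢
  set u := bQ (1 : E →L[𝕜] E) n f with hu
  set w := bQ (1 : E →L[𝕜] E) N f with hw
  have e1 : bQ (P n) n f - f = post (P n) (u - f) + post (P n) (f - w) +
      (post (P n) w - w) + (w - f) := by
    rw [map_sub, map_sub, hu, ← bQ_post]
    abel
  have b1 : ‖post (P n) (u - f)‖ ≤ C * (ε / (4 * (C + 1))) := by
    refine ((post (P n)).le_opNorm _).trans ?_
    exact mul_le_mul ((post_norm _).trans (hC n)) a1.le (norm_nonneg _) hC0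
  have b2 : ‖post (P n) (f - w)‖ ≤ C * (ε / (4 * (C + 1))) := by
    refine ((post (P n)).le_opNorm _).trans ?_
    rw [norm_sub_rev]
    exact mul_le_mul ((post_norm _).trans (hC n)) a2.le (norm_nonneg _) hC0
  have b3 : C * (ε / (4 * (C + 1))) < ε / 4 := by
    have h1 : C * (ε / (4 * (C + 1))) = ε / 4 * (C / (C + 1)) := by
      field_simp
    rw [h1]
    have h2 : C / (C + 1) < 1 := (div_lt_one (by positivity)).2 (by linarith)
    have h3 : 0 < ε / 4 := by positivity
    nlinarith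
  have b4 : ε / (4 * (C + 1)) ≤ ε / 4 := by
    apply div_le_div_of_nonneg_left hε.le (by norm_num)
    linarith
  rw [e1]
  calc _ ≤ ‖post (P n) (u - f)‖ + ‖post (P n) (f - w)‖ +
        ‖post (P n) w - w‖ + ‖w - f‖ := by
        refine (norm_add_le _ _).trans (add_le_add ?_ le_rfl)
        refine (norm_add_le _ _).trans (add_le_add ?_ le_rfl)
        exact norm_add_le _ _
    _ < ε / 4 + ε / 4 + ε / 4 + ε / 4 := by linarith
    _ = ε := by ring

/-- `C([0,1], E)` has the SHAI property -/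
theorem shai_vec [CompleteSpace E] [TopologicalSpace.SeparableSpace E] (P : ℕ → (E →L[𝕜] E))
    (hP : ∀ n, FiniteDimensional 𝕜 (LinearMap.range (P n : E →ₗ[𝕜] E)))
    (hlim : ∀ x, Tendsto (fun n => P n x) atTop (𝓝 x))
    {Y : Type*} [NormedAddCommGroup Y] [NormedSpace 𝕜 Y] [CompleteSpace Y] [Nontrivial Y]
    (φ : (C(I, E) →L[𝕜] C(I, E)) →ₙₐ[𝕜] (Y →L[𝕜] Y)) (hφ : Function.Surjective φ) :
    Function.Injective φ := by
  have : SecondCountableTopology E := UniformSpace.secondCountable_of_separable E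
  have : TopologicalSpace.SeparableSpace C(I, E) := inferInstance
  choose h h01 hreg hs using exists_bump
  have hdisj : ∀ m n x, m ≠ n → h m x ≠ 0 → h n x = 0 := by
    intro m n x hmn hx
    by_contra hx'
    exact hmn (reg_disj (hreg m x hx) (hreg n x hx'))
  obtain ⟨J, hJ⟩ := exists_J (𝕜 := 𝕜) (E := E) h h01 hdisj rm
  refine shai (fun n => bQ (P n) n) (fun n => bQ_finite (P n) (hP n) n)
    (fun f => bQ_tendsto P hlim f) J (fun n => compE (sm n)) 1 (fun n => compE_norm _) ?_ φ hφ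
  intro n g
  ext x
  rw [compE_apply, hJ n (sm n x) (hs n x), rm_sm]

end Unit

end Pool.Agent.Y283.SH
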